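import Pool.Agent.Helper98.HQ.Spec

/-!
# HQ, part WEAK: weak convergence of the perturbed stationary distributions
-/

set_option autoImplicit false

open MeasureTheory Filter Topology
open scoped ENNReal NNReal

namespace Pool.Agent.Helper57.HQ.WEAK

open Pool.Agent.Helper98.HQ

/-- Markov's inequality. -/
theorem tail_le (m : ℕ) (ρ : Measure (Fin (m + 1) → ℝ)) [IsProbabilityMeasure ρ]
    (hadm : ∀ᵐ w ∂ρ, Adm w) (hint : ∀ i, Integrable (fun w : Fin (m + 1) → ℝ => w i) ρ)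
    (K R : ℝ) (hR : 0 < R) (hK : ∑ i, ∫ w, w i ∂ρ ≤ K) :
    ρ {w | ¬ ∀ i, w i ≤ R} ≤ ENNReal.ofReal (K / R) := by
  have h1 : ρ {w | ¬ ∀ i, w i ≤ R} ≤ ρ {w | R ≤ ∑ i, w i} := by
    refine measure_mono_ae ?_
    filter_upwards [hadm] with w hw hw2
    have hw3 : ¬ ∀ i, w i ≤ R := hw2
    push Not at hw3
    obtain ⟨i, hi⟩ := hw3
    show R ≤ ∑ i, w i
    exact hi.le.trans (Finset.single_le_sum (f := w) (fun j _ => hw.2 j) (Finset.mem_univ i))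
  refine h1.trans ?_
  have hint' : Integrable (fun w : Fin (m + 1) → ℝ => ∑ i, w i) ρ :=
    integrable_finsetSum _ fun i _ => hint i
  have h2 := mul_meas_ge_le_integral_of_nonneg (μ := ρ) (f := fun w => ∑ i, w i)
    (by filter_upwards [hadm] with w hw using Finset.sum_nonneg fun i _ => hw.2 i) hint' R
  rw [integral_finsetSum _ fun i _ => hint i] at h2
  have h3 : ρ.real {w | R ≤ ∑ i, w i} ≤ K / R := by
    rw [le_div_iff₀ hR, mul_comm]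
    exact h2.trans hK
  rw [← ofReal_measureReal (measure_ne_top _ _)]
  exact ENNReal.ofReal_le_ofReal h3

/-- Comparison with the value at `0`. -/
theorem compare (m : ℕ) (ρ : Measure (Fin (m + 1) → ℝ)) [IsProbabilityMeasure ρ]
    (hadm : ∀ᵐ w ∂ρ, Adm w) (R : ℝ) (ψ : (Fin (m + 1) → ℝ) → ℝ≥0∞) (hψ : Measurable ψ)
    (h1 : ∀ x, ψ x ≤ 1) (c d : ℝ≥0∞) (hc : c ≤ 1)
    (hx : ∀ x : Fin (m + 1) → ℝ, Adm x → (∀ i, x i ≤ R) → ψ x ≤ c + d ∧ c ≤ ψ x + d) :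
    ∫⁻ w, ψ w ∂ρ ≤ c + d + ρ {w | ¬ ∀ i, w i ≤ R} ∧
      c ≤ ∫⁻ w, ψ w ∂ρ + d + ρ {w | ¬ ∀ i, w i ≤ R} := by
  have hT : MeasurableSet {w : Fin (m + 1) → ℝ | ¬ ∀ i, w i ≤ R} := by
    have : {w : Fin (m + 1) → ℝ | ¬ ∀ i, w i ≤ R} = (⋂ i, {w | w i ≤ R})ᶜ := by
      ext w; simp
    rw [this]
    exact (MeasurableSet.iInter fun i =>
      measurableSet_le (measurable_pi_apply i) measurable_const).compl
  have hTi : ∫⁻ w, Set.indicator {w : Fin (m + 1) → ℝ | ¬ ∀ i, w i ≤ R} (fun _ => (1 : ℝ≥0∞)) w ∂ρ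
      = ρ {w | ¬ ∀ i, w i ≤ R} := by
    rw [lintegral_indicator hT]
    simp
  constructor
  · calc ∫⁻ w, ψ w ∂ρ ≤ ∫⁻ w, (c + d) +
          Set.indicator {w : Fin (m + 1) → ℝ | ¬ ∀ i, w i ≤ R} (fun _ => (1 : ℝ≥0∞)) w ∂ρ := by
          apply lintegral_mono_ae
          filter_upwards [hadm] with w hw
          by_cases hwR : ∀ i, w i ≤ R
          · exact (hx w hw hwR).1.trans le_self_add
          · rw [Set.indicator_of_mem (show w ∈ {w : Fin (m + 1) → ℝ | ¬ ∀ i, w i ≤ R} from hwR)]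
            exact (h1 w).trans le_add_self
      _ = c + d + ρ {w | ¬ ∀ i, w i ≤ R} := by
          rw [lintegral_add_left measurable_const, hTi]
          simp
  · calc c = ∫⁻ _w, c ∂ρ := by simp
      _ ≤ ∫⁻ w, (ψ w + d) +
          Set.indicator {w : Fin (m + 1) → ℝ | ¬ ∀ i, w i ≤ R} (fun _ => (1 : ℝ≥0∞)) w ∂ρ := by
          apply lintegral_mono_ae
          filter_upwards [hadm] with w hw
          by_cases hwR : ∀ i, w i ≤ R
          · exact (hx w hw hwR).2.trans le_self_add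
          · rw [Set.indicator_of_mem (show w ∈ {w : Fin (m + 1) → ℝ | ¬ ∀ i, w i ≤ R} from hwR)]
            exact hc.trans le_add_self
      _ = ∫⁻ w, ψ w ∂ρ + d + ρ {w | ¬ ∀ i, w i ≤ R} := by
          have hm2 : Measurable fun w => ψ w + d := hψ.add measurable_const
          rw [lintegral_add_left hm2, hTi, lintegral_add_left hψ]
          simp

theorem pp_nonneg (e : ℝ) : 0 ≤ pp e := by unfold pp; positivity

theorem pp_le_one (e : ℝ) : pp e ≤ 1 := by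
  unfold pp
  rw [div_le_one (by positivity)]
  linarith [sq_nonneg e]

theorem pp_mean (β e : ℝ) (he : 0 < e) :
    (1 - pp e) * (1 - β * e) + pp e * (1 + β / e) = 1 := by
  unfold pp
  have : (1 + e ^ 2) ≠ 0 := by positivity
  field_simp
  ring

theorem pp_sq (β e : ℝ) (he : 0 < e) :
    (1 - pp e) * (1 - β * e) ^ 2 + pp e * (1 + β / e) ^ 2 = 1 + β ^ 2 := by
  unfold pp
  have : (1 + e ^ 2) ≠ 0 := by positivity
  field_simp
  ring

theorem pp_tendsto (e : ℕ → ℝ) (h : Tendsto e atTop (𝓝 0)) :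
    Tendsto (fun j => pp (e j)) atTop (𝓝 0) := by
  unfold pp
  have h1 : Tendsto (fun j => e j ^ 2 / (1 + e j ^ 2)) atTop (𝓝 (0 ^ 2 / (1 + 0 ^ 2))) :=
    (h.pow 2).div ((tendsto_const_nhds).add (h.pow 2)) (by norm_num)
  simpa using h1

/-- WEAK -/
theorem main (hTEL : S_TEL) (hCPL : S_CPL) (hLIPP : S_LIPP) (hCOAL : S_COAL) (hMEANB : S_MEANB) :
    S_WEAK := by
  intro m ν β e πe π hF L φ hL hφ hφ1 hLip
  have hinp := hF.inp
  have hνp : IsProbabilityMeasure ν := hinp.prob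
  set A : ℝ := ∫ u, u.1 ∂ν with hA
  set B : ℝ := ∫ u, u.2 ∂ν with hB
  set c : ℝ := 2 * (A - B / (m + 1)) with hc
  have hm : (0 : ℝ) < m + 1 := by positivity
  have hc0 : 0 < c := by
    have h1 := hinp.stab
    push_cast at h1
    have h2 : B / (m + 1) < A := by
      rw [div_lt_iff₀ hm, mul_comm]
      exact h1
    rw [hc]
    linarith
  have hS2 : 0 ≤ ∫ u, u.2 ^ 2 ∂ν := integral_nonneg fun u => by positivity
  have hT2 : 0 ≤ ∫ u, u.1 ^ 2 ∂ν := integral_nonneg fun u => by positivity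
  set K : ℝ := ((1 + β ^ 2) * (∫ u, u.2 ^ 2 ∂ν) + (m + 1) * ∫ u, u.1 ^ 2 ∂ν) / c with hK
  have hK0 : 0 ≤ K := by rw [hK]; positivity
  -- means
  have hb : ∀ j, 0 ≤ 1 + β / e j := fun j => by
    have := (hF.e0 j).1
    have := hF.β0
    positivity
  have hmean : ∀ j, (∀ i, Integrable (fun w : Fin (m + 1) → ℝ => w i) (πe j)) ∧
      ∑ i, ∫ w, w i ∂(πe j) ≤ K := by
    intro j
    obtain ⟨h1, h2⟩ := hMEANB m ν (pp (e j)) (1 - β * e j) (1 + β / e j) (πe j) hinp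
      (pp_nonneg _) (pp_le_one _) (by linarith [(hF.e0 j).2]) (hb j)
      (pp_mean β (e j) (hF.e0 j).1) (hF.st j)
    refine ⟨h1, ?_⟩
    rw [pp_sq β (e j) (hF.e0 j).1] at h2
    rw [hK, le_div_iff₀ hc0, mul_comm]
    exact h2
  have hmean0 : (∀ i, Integrable (fun w : Fin (m + 1) → ℝ => w i) π) ∧
      ∑ i, ∫ w, w i ∂π ≤ K := by
    obtain ⟨h1, h2⟩ := hMEANB m ν 0 1 1 π hinp le_rfl zero_le_one zero_le_one zero_le_one
      (by norm_num) hF.st0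
    refine ⟨h1, ?_⟩
    rw [hK, le_div_iff₀ hc0, mul_comm]
    refine h2.trans ?_
    have : (((1 : ℝ) - 0) * 1 ^ 2 + 0 * 1 ^ 2) = 1 := by norm_num
    rw [this]
    have h3 : 0 ≤ β ^ 2 * ∫ u, u.2 ^ 2 ∂ν := by positivity
    nlinarith
  have hfin : ∫⁻ w, φ w ∂π ≠ ∞ := by
    have := hF.st0.prob
    refine ne_top_of_le_ne_top ENNReal.one_ne_top ?_
    calc ∫⁻ w, φ w ∂π ≤ ∫⁻ _w, 1 ∂π := lintegral_mono hφ1
      _ = 1 := by simp
  rw [ENNReal.tendsto_nhds hfin]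
  intro ε hε
  -- a real `ε'`
  set ε' : ℝ := (min ε 1).toReal with hε'
  have hmin : min ε 1 ≠ ∞ := ne_top_of_le_ne_top ENNReal.one_ne_top (min_le_right _ _)
  have hε'0 : 0 < ε' := ENNReal.toReal_pos (lt_min hε one_pos).ne' hmin
  have hε'le : ENNReal.ofReal ε' ≤ ε := by
    rw [hε', ENNReal.ofReal_toReal hmin]
    exact min_le_left _ _
  set R : ℝ := 8 * (K + 1) / ε' with hR
  have hR0 : 0 < R := by rw [hR]; positivity
  have hKR : K / R ≤ ε' / 8 := by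
    rw [hR, div_le_div_iff₀ (by positivity) (by norm_num)]
    have : ε' * (8 * (K + 1) / ε') = 8 * (K + 1) := by field_simp
    rw [this]
    linarith
  obtain ⟨n, hn⟩ := hCOAL m ν R (ε' / 8) hinp hR0.le (by positivity)
  set ψ : (Fin (m + 1) → ℝ) → ℝ≥0∞ := (op ν 1)^[n] φ with hψ
  obtain ⟨hψm, hψ1, -⟩ := hLIPP (m + 1) ν L φ hνp hL hφ hφ1 hLip n
  have hx : ∀ x : Fin (m + 1) → ℝ, Adm x → (∀ i, x i ≤ R) →
      ψ x ≤ ψ 0 + ENNReal.ofReal (ε' / 8) ∧ ψ 0 ≤ ψ x + ENNReal.ofReal (ε' / 8) := by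
    intro x hx1 hx2
    obtain ⟨h1, h2⟩ := hn x hx1 hx2
    exact ⟨(hCPL (m + 1) ν φ n x 0 hνp hφ hφ1).trans (add_le_add_right h2 _),
      (hCPL (m + 1) ν φ n 0 x hνp hφ hφ1).trans (add_le_add_right h1 _)⟩
  have hcmp : ∀ ρ : Measure (Fin (m + 1) → ℝ), IsProbabilityMeasure ρ → (∀ᵐ w ∂ρ, Adm w) →
      (∀ i, Integrable (fun w : Fin (m + 1) → ℝ => w i) ρ) → ∑ i, ∫ w, w i ∂ρ ≤ K →
      ∫⁻ w, ψ w ∂ρ ≤ ψ 0 + ENNReal.ofReal (ε' / 8) + ENNReal.ofReal (ε' / 8) ∧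
        ψ 0 ≤ ∫⁻ w, ψ w ∂ρ + ENNReal.ofReal (ε' / 8) + ENNReal.ofReal (ε' / 8) := by
    intro ρ hρ h1 h2 h3
    have h4 : ρ {w | ¬ ∀ i, w i ≤ R} ≤ ENNReal.ofReal (ε' / 8) :=
      (tail_le m ρ h1 h2 K R hR0 h3).trans (ENNReal.ofReal_le_ofReal hKR)
    obtain ⟨h5, h6⟩ := compare m ρ h1 R ψ hψm hψ1 (ψ 0) (ENNReal.ofReal (ε' / 8)) (hψ1 0) hx
    exact ⟨h5.trans (add_le_add_right h4 _), h6.trans (add_le_add_right h4 _)⟩
  -- the perturbation
  have hlim : Tendsto (fun j => (n : ℝ) * (L * (1 - (1 - β * e j)) * B + pp (e j))) atTop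
      (𝓝 0) := by
    have h1 : Tendsto (fun j => (n : ℝ) * (L * (1 - (1 - β * e j)) * B + pp (e j))) atTop
        (𝓝 ((n : ℝ) * (L * (1 - (1 - β * 0)) * B + 0))) :=
      (((((tendsto_const_nhds.sub (tendsto_const_nhds.sub
        (hF.lim.const_mul β))).const_mul L)).mul_const B).add (pp_tendsto e hF.lim)).const_mul _
    simpa using h1
  have hev : ∀ᶠ j in atTop, (n : ℝ) * (L * (1 - (1 - β * e j)) * B + pp (e j)) < ε' / 2 :=
    hlim.eventually (gt_mem_nhds (by positivity))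
  obtain ⟨h0a, h0b⟩ := hTEL (m + 1) ν 0 1 1 L π φ n hinp le_rfl zero_le_one zero_le_one le_rfl hL
    hF.st0 hφ hφ1 hLip
  have hz : ENNReal.ofReal (n * (L * (1 - 1) * (∫ u, u.2 ∂ν) + 0)) = 0 := by simp
  rw [hz, add_zero] at h0a h0b
  obtain ⟨h1a, h1b⟩ := hcmp π hF.st0.prob hF.st0.adm hmean0.1 hmean0.2
  filter_upwards [hev] with j hj
  obtain ⟨hja, hjb⟩ := hTEL (m + 1) ν (pp (e j)) (1 - β * e j) (1 + β / e j) L (πe j) φ n hinp
    (pp_nonneg _) (pp_le_one _) (by linarith [(hF.e0 j).2])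
    (by linarith [mul_pos hF.β0 (hF.e0 j).1]) hL (hF.st j) hφ hφ1 hLip
  obtain ⟨h2a, h2b⟩ := hcmp (πe j) (hF.st j).prob (hF.st j).adm (hmean j).1 (hmean j).2
  have hη : ENNReal.ofReal (n * (L * (1 - (1 - β * e j)) * (∫ u, u.2 ∂ν) + pp (e j))) ≤
      ENNReal.ofReal (ε' / 2) := ENNReal.ofReal_le_ofReal hj.le
  set d : ℝ≥0∞ := ENNReal.ofReal (ε' / 8) with hd
  set η : ℝ≥0∞ := ENNReal.ofReal (ε' / 2) with hηd
  have hsum : d + d + d + d + η = ENNReal.ofReal ε' := by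
    rw [hd, hηd, ← ENNReal.ofReal_add (by positivity) (by positivity),
      ← ENNReal.ofReal_add (by positivity) (by positivity),
      ← ENNReal.ofReal_add (by positivity) (by positivity),
      ← ENNReal.ofReal_add (by positivity) (by positivity)]
    congr 1
    ring
  have hup : ∫⁻ w, φ w ∂(πe j) ≤ ∫⁻ w, φ w ∂π + ε := by
    calc ∫⁻ w, φ w ∂(πe j) ≤ ∫⁻ w, ψ w ∂(πe j) + η := hja.trans (add_le_add_right hη _)
      _ ≤ (ψ 0 + d + d) + η := add_le_add_left h2a _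
      _ ≤ ((∫⁻ w, ψ w ∂π + d + d) + d + d) + η := by gcongr
      _ ≤ ((∫⁻ w, φ w ∂π + d + d) + d + d) + η := by gcongr
      _ = ∫⁻ w, φ w ∂π + (d + d + d + d + η) := by ring
      _ ≤ ∫⁻ w, φ w ∂π + ε := by rw [hsum]; gcongr
  have hlo : ∫⁻ w, φ w ∂π ≤ ∫⁻ w, φ w ∂(πe j) + ε := by
    calc ∫⁻ w, φ w ∂π ≤ ∫⁻ w, ψ w ∂π := h0a
      _ ≤ (ψ 0 + d + d) := h1a
      _ ≤ ((∫⁻ w, ψ w ∂(πe j) + d + d) + d + d) := by gcongr
      _ ≤ (((∫⁻ w, φ w ∂(πe j) + η) + d + d) + d + d) := by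
          gcongr
          exact hjb.trans (add_le_add_right hη _)
      _ = ∫⁻ w, φ w ∂(πe j) + (d + d + d + d + η) := by ring
      _ ≤ ∫⁻ w, φ w ∂(πe j) + ε := by rw [hsum]; gcongr
  exact ⟨tsub_le_iff_right.2 hlo, hup⟩

end Pool.Agent.Helper57.HQ.WEAK
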